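import Pool.Agent.H56.KAF.Stmts

/-!
# Module CNT: counting translations
-/

set_option autoImplicit false

namespace Pool.KAF

open Finset Real
open Pool.Agent.H49.Ent Pool.Agent.H32.Dense Pool.STK

theorem cnt_one (J w : ℕ) (hw : w ≤ J) (x : ℝ) (y : ℤ) :
    (univ.filter fun a : Fin (2 ^ J) =>
      ⌊(2 : ℝ) ^ w * ((x + ((a : ℕ) : ℝ) / 2 ^ J) / 2)⌋ = y).card ≤ 2 * 2 ^ (J - w) := by
  have hJ : (0 : ℝ) < 2 ^ J := by positivity
  have hw0 : (0 : ℝ) < 2 ^ w := by positivity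
  have hJw : (2 : ℝ) ^ J = 2 ^ (J - w) * 2 ^ w := by
    rw [← pow_add, Nat.sub_add_cancel hw]
  let c : ℝ := 2 ^ (J - w) * (2 * y) - 2 ^ J * x
  have key : ∀ a : Fin (2 ^ J), ⌊(2 : ℝ) ^ w * ((x + ((a : ℕ) : ℝ) / 2 ^ J) / 2)⌋ = y →
      ((a : ℕ) : ℤ) ∈ Finset.Ico ⌈c⌉ (⌈c⌉ + ((2 * 2 ^ (J - w) : ℕ) : ℤ)) := by
    intro a ha
    obtain ⟨h1, h2⟩ := Int.floor_eq_iff.1 ha
    have e1 : (2 : ℝ) ^ w * ((x + ((a : ℕ) : ℝ) / 2 ^ J) / 2) * (2 * 2 ^ (J - w)) =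
        2 ^ J * x + (a : ℕ) := by
      have e2 : 2 ^ J * x + (a : ℕ) = 2 ^ J * (x + ((a : ℕ) : ℝ) / 2 ^ J) := by
        field_simp
      rw [e2]
      generalize x + ((a : ℕ) : ℝ) / 2 ^ J = z
      rw [hJw]
      ring
    have hL : (0 : ℝ) < 2 * 2 ^ (J - w) := by positivity
    have h3 : (y : ℝ) * (2 * 2 ^ (J - w)) ≤ 2 ^ J * x + (a : ℕ) := by
      rw [← e1]
      exact mul_le_mul_of_nonneg_right h1 hL.le
    have h4 : 2 ^ J * x + (a : ℕ) < ((y : ℝ) + 1) * (2 * 2 ^ (J - w)) := by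
      rw [← e1]
      exact mul_lt_mul_of_pos_right h2 hL
    have h5 : c ≤ (((a : ℕ) : ℤ) : ℝ) := by
      simp only [c]
      push_cast
      linarith
    have h6 : (((a : ℕ) : ℤ) : ℝ) < c + 2 * 2 ^ (J - w) := by
      simp only [c]
      push_cast
      linarith
    rw [Finset.mem_Ico]
    refine ⟨Int.ceil_le.2 h5, ?_⟩
    have h7 : (((a : ℕ) : ℤ) : ℝ) < ((⌈c⌉ + ((2 * 2 ^ (J - w) : ℕ) : ℤ) : ℤ) : ℝ) := by
      have := Int.le_ceil c
      push_cast at h6 ⊢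
      linarith
    exact_mod_cast h7
  have h8 : (univ.filter fun a : Fin (2 ^ J) =>
      ⌊(2 : ℝ) ^ w * ((x + ((a : ℕ) : ℝ) / 2 ^ J) / 2)⌋ = y).card ≤
      (Finset.Ico ⌈c⌉ (⌈c⌉ + ((2 * 2 ^ (J - w) : ℕ) : ℤ))).card := by
    refine Finset.card_le_card_of_injOn (fun a => ((a : ℕ) : ℤ)) ?_ ?_
    · intro a ha
      exact key a (Finset.mem_filter.1 (Finset.mem_coe.1 ha)).2
    · intro a _ b _ hab
      have h9 : ((a : ℕ) : ℤ) = ((b : ℕ) : ℤ) := hab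
      exact Fin.ext (by exact_mod_cast h9)
  rw [Int.card_Ico, add_sub_cancel_left, Int.toNat_natCast] at h8
  exact h8

theorem cnt_thm : CNTStmt := by
  intro m J w hw x y
  have h1 : (univ.filter fun a : Fin m → Fin (2 ^ J) =>
      fl w (fun i => (x i + ((a i : ℕ) : ℝ) / 2 ^ J) / 2) = y) ⊆
      Fintype.piFinset fun i => univ.filter fun b : Fin (2 ^ J) =>
        ⌊(2 : ℝ) ^ w * ((x i + ((b : ℕ) : ℝ) / 2 ^ J) / 2)⌋ = y i := by
    intro a ha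
    have h := (Finset.mem_filter.1 ha).2
    refine Fintype.mem_piFinset.2 fun i => Finset.mem_filter.2 ⟨Finset.mem_univ _, ?_⟩
    exact congrFun h i
  have h2 := Finset.card_le_card h1
  rw [Fintype.card_piFinset] at h2
  have h3 : (∏ i : Fin m, (univ.filter fun b : Fin (2 ^ J) =>
        ⌊(2 : ℝ) ^ w * ((x i + ((b : ℕ) : ℝ) / 2 ^ J) / 2)⌋ = y i).card) ≤
      (2 * 2 ^ (J - w)) ^ m := by
    refine (Finset.prod_le_prod (fun _ _ => Nat.zero_le _)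
      (fun i _ => cnt_one J w hw (x i) (y i))).trans ?_
    rw [Finset.prod_const, Finset.card_univ, Fintype.card_fin]
  exact_mod_cast h2.trans h3

end Pool.KAF
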