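import Pool.Agent.H56.KAF.Stmts

/-!
# Module EXC: the mean of the conditional probabilities as a sum over values
-/

set_option autoImplicit false

namespace Pool.KAF

open Finset Real
open Pool.Agent.H49.Ent Pool.Agent.H32.Dense Pool.STK

theorem exc_thm : EXCStmt := by
  intro Ω S T _ _ _ p A B _
  have h1 := sum_mul_eq_sum_image p (fun v => (A v, B v))
    (fun s => law p (fun v => (A v, B v)) s / law p B s.2)
  have h2 : Ex p (cp p A B) = ∑ ω, p ω *
      (fun s : S × T => law p (fun v => (A v, B v)) s / law p B s.2) (A ω, B ω) := rfl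
  have h3 : (univ.image fun v => (A v, B v)) ⊆ univ.image A ×ˢ univ.image B := by
    intro s hs
    obtain ⟨v, -, rfl⟩ := Finset.mem_image.1 hs
    exact Finset.mem_product.2 ⟨Finset.mem_image_of_mem A (Finset.mem_univ v),
      Finset.mem_image_of_mem B (Finset.mem_univ v)⟩
  rw [h2, h1, Finset.sum_subset h3, Finset.sum_product_right]
  · refine Finset.sum_congr rfl fun b _ => Finset.sum_congr rfl fun a _ => ?_
    rw [sq, mul_div_assoc]
  · intro s _ hs
    rw [law_eq_zero_of_notMem p _ hs, zero_mul]

end Pool.KAF
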